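import Mathlib

/-!
# The equation `V_1(n) = 1` of Erdős and Selfridge has only finitely many solutions

For `n ≥ 1` and `k ≥ 0` let `V(n; k)` be the number of primes `p ∣ n + k` such that the exact power
of `p` dividing `n + k` divides none of `n, n + 1, …, n + k - 1`, and `V_1(n) = max_{k ≥ 1} V(n; k)`.

Sketch of the proof.  An exact prime power `p ^ a` of `n + k` is counted by `V(n; k)` if and only if
`p ^ a > k`.  Let `V_1(n) = 1`.

(1) Let `y = r ^ (e + 1)` be the smallest prime power which does not divide `n`, choose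
`1 ≤ c < r` with `r ^ (e + 1) ∣ n + c r ^ e` and look at `k = c r ^ e < y`.  The exact power `r ^ α`
of `r` in `n + k` is larger than `k`, so all other exact prime powers `s ^ v` of `n + k` are at most
`k < y`; hence `s ^ v` divides `n` and therefore `k`.  It follows that `n + k = c r ^ α`.

(2) All primes `s < y` divide `n = c r ^ e (r ^ γ - 1)`, `γ = α - e`.  The order `d` of `r` modulo
`s ∤ c r` divides `γ` and `s - 1`, and at most `min (y / d, d log y)` primes `s < y` have the same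
order `d`.  So `π(y)` is at most about `τ(γ) √y log y`.

(3) Choose `i ∈ {0, 1, 2}` with `α = 3 t + i` and look at `j = c r ^ e + c r ^ i`.
Here `n + j = c r ^ i (r ^ t + 1) (r ^ (2 t) - r ^ t + 1)` has only one exact prime power larger
than `j`, which is impossible if `r ^ t > j ^ j + 1`.  So `α` is at most a power of `y`.

By the divisor bound (2) and (3) bound `y`, then `α`, and then `n`.
-/

set_option autoImplicit false

namespace Pool.Agent.E8helper70.Old.FinitelyManyH70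

open Finset

/-- `V n k` is the number of primes `p ∣ n + k` such that the exact power of `p` dividing `n + k`
divides none of the numbers `n, n + 1, …, n + k - 1`. -/
def V (n k : ℕ) : ℕ :=
  ((n + k).primeFactors.filter fun p => ∀ j < k, ¬ p ^ (n + k).factorization p ∣ n + j).card

/-- Two exact prime powers of `n + k` larger than `k` give `V n k ≥ 2`. -/
theorem key {n k : ℕ} (hn : 1 ≤ n) (hV : V n k ≤ 1) {p q : ℕ} (hp : p.Prime) (hq : q.Prime)
    (hpq : p ≠ q) (hpd : p ∣ n + k) (hqd : q ∣ n + k) (h1 : k < p ^ (n + k).factorization p) :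
    q ^ (n + k).factorization q ≤ k := by
  by_contra h
  push Not at h
  have hne : n + k ≠ 0 := by omega
  have mem : ∀ s : ℕ, s.Prime → s ∣ n + k → k < s ^ (n + k).factorization s →
      s ∈ (n + k).primeFactors.filter fun p => ∀ j < k, ¬ p ^ (n + k).factorization p ∣ n + j := by
    intro s hs hsd hk
    rw [mem_filter]
    refine ⟨Nat.mem_primeFactors.2 ⟨hs, hsd, hne⟩, fun j hj hd => ?_⟩
    have h2 : s ^ (n + k).factorization s ∣ n + k := Nat.ordProj_dvd _ _
    have h3 : s ^ (n + k).factorization s ∣ (n + k) - (n + j) := Nat.dvd_sub h2 hd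
    have h4 := Nat.le_of_dvd (by omega) h3
    omega
  have hsub : ({p, q} : Finset ℕ) ⊆
      (n + k).primeFactors.filter fun p => ∀ j < k, ¬ p ^ (n + k).factorization p ∣ n + j := by
    intro s hs
    rw [mem_insert, mem_singleton] at hs
    rcases hs with rfl | rfl
    · exact mem _ hp hpd h1
    · exact mem _ hq hqd h
  have := card_le_card hsub
  rw [card_pair hpq] at this
  unfold V at hV
  omega

/-- Step 1: the structure of the solutions. -/
theorem structure_lemma {n : ℕ} (hn : 1 ≤ n) (hV : ∀ k, 1 ≤ k → V n k ≤ 1) :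
    ∃ r e c α : ℕ, r.Prime ∧ 1 ≤ c ∧ c < r ∧ e < α ∧ n + c * r ^ e = c * r ^ α ∧
      ∀ s j : ℕ, s.Prime → s ^ j < r ^ (e + 1) → s ^ j ∣ n := by
  classical
  have hex : ∃ m, IsPrimePow m ∧ ¬ m ∣ n := by
    refine ⟨2 ^ n, (isPrimePow_nat_iff _).2 ⟨2, n, Nat.prime_two, by omega, rfl⟩, fun h => ?_⟩
    have := Nat.le_of_dvd (by omega) h
    have h2 : n < 2 ^ n := Nat.lt_two_pow_self
    omega
  obtain ⟨y, ⟨hy1, hy2⟩, hmin⟩ : ∃ y, (IsPrimePow y ∧ ¬ y ∣ n) ∧
      ∀ m < y, ¬ (IsPrimePow m ∧ ¬ m ∣ n) :=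
    ⟨Nat.find hex, Nat.find_spec hex, fun m hm => Nat.find_min hex hm⟩
  obtain ⟨r, a, hr, ha, hra⟩ := (isPrimePow_nat_iff _).1 hy1
  obtain ⟨e, rfl⟩ : ∃ e, a = e + 1 := ⟨a - 1, by omega⟩
  have hall : ∀ s j : ℕ, s.Prime → s ^ j < r ^ (e + 1) → s ^ j ∣ n := by
    intro s j hs hlt
    rcases Nat.eq_zero_or_pos j with rfl | hj
    · simp
    · by_contra hnd
      exact hmin (s ^ j) (by rw [← hra]; exact hlt)
        ⟨(isPrimePow_nat_iff _).2 ⟨s, j, hs, hj, rfl⟩, hnd⟩
  have hr2 : 2 ≤ r := hr.two_le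
  obtain ⟨m, hm⟩ : r ^ e ∣ n := hall r e hr (Nat.pow_lt_pow_right (by omega) (by omega))
  have hrm : ¬ r ∣ m := by
    rintro ⟨u, rfl⟩
    apply hy2
    rw [← hra, hm]
    exact ⟨u, by ring⟩
  have hmr : m % r ≠ 0 := fun h => hrm (Nat.dvd_of_mod_eq_zero h)
  have hmr2 : m % r < r := Nat.mod_lt _ (by omega)
  obtain ⟨c, hc⟩ : ∃ c, c = r - m % r := ⟨_, rfl⟩
  have hc1 : 1 ≤ c := by omega
  have hc2 : c < r := by omega
  have hdc : r ∣ m + c := by
    have h1 := Nat.div_add_mod m r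
    refine ⟨m / r + 1, ?_⟩
    rw [mul_add, mul_one]
    omega
  obtain ⟨k, hk⟩ : ∃ k, k = c * r ^ e := ⟨_, rfl⟩
  have hre : 0 < r ^ e := Nat.pos_of_ne_zero (pow_ne_zero _ (by omega))
  have hk1 : 1 ≤ k := by rw [hk]; exact Nat.mul_pos hc1 hre
  have hky : k < r ^ (e + 1) := by
    rw [hk, pow_succ, mul_comm (r ^ e) r]
    exact Nat.mul_lt_mul_of_pos_right hc2 hre
  have hN0 : n + k ≠ 0 := by omega
  have hrN : r ^ (e + 1) ∣ n + k := by
    rw [hm, hk, pow_succ, mul_comm c, ← mul_add]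
    exact mul_dvd_mul_left _ hdc
  have hαe : e + 1 ≤ (n + k).factorization r := (hr.pow_dvd_iff_le_factorization hN0).1 hrN
  obtain ⟨α, hα⟩ : ∃ α, α = (n + k).factorization r := ⟨_, rfl⟩
  have hkα : k < r ^ (n + k).factorization r :=
    lt_of_lt_of_le hky (Nat.pow_le_pow_right (by omega) hαe)
  have hrd : r ∣ n + k := dvd_trans (dvd_pow_self r (by omega)) hrN
  have hc0 : c ≠ 0 := by omega
  have hrc : c.factorization r = 0 := by
    apply Nat.factorization_eq_zero_of_not_dvd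
    intro h
    have := Nat.le_of_dvd (by omega) h
    omega
  have heq : n + k = c * r ^ α := by
    apply Nat.eq_of_factorization_eq hN0 (mul_ne_zero hc0 (pow_ne_zero _ (by omega)))
    intro s
    by_cases hs : s.Prime
    swap
    · rw [Nat.factorization_eq_zero_of_not_prime _ hs, Nat.factorization_eq_zero_of_not_prime _ hs]
    rw [Nat.factorization_mul hc0 (pow_ne_zero _ (by omega)), Nat.factorization_pow,
      Finsupp.add_apply, Finsupp.smul_apply, hr.factorization]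
    by_cases hsr : s = r
    · subst hsr
      rw [hrc, Finsupp.single_eq_same, ← hα]
      simp
    · rw [Finsupp.single_eq_of_ne hsr]
      have hkc : k.factorization s = c.factorization s := by
        rw [hk, Nat.factorization_mul hc0 (pow_ne_zero _ (by omega)), Nat.factorization_pow,
          Finsupp.add_apply, Finsupp.smul_apply, hr.factorization, Finsupp.single_eq_of_ne hsr]
        simp
      simp only [smul_zero, add_zero]
      rw [← hkc]
      have hk0 : k ≠ 0 := by omega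
      apply le_antisymm
      · -- v_s(n+k) ≤ v_s(k)
        rw [← hs.pow_dvd_iff_le_factorization hk0]
        have h1 : s ^ (n + k).factorization s ∣ n + k := Nat.ordProj_dvd _ _
        have h2 : s ^ (n + k).factorization s ≤ k := by
          by_cases hsd : s ∣ n + k
          · exact key hn (hV k hk1) hr hs (Ne.symm hsr) hrd hsd hkα
          · rw [Nat.factorization_eq_zero_of_not_dvd hsd, pow_zero]
            exact hk1
        have h3 : s ^ (n + k).factorization s ∣ n := hall s _ hs (lt_of_le_of_lt h2 hky)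
        exact (Nat.dvd_add_right h3).1 h1
      · rw [← hs.pow_dvd_iff_le_factorization hN0]
        have h1 : s ^ k.factorization s ∣ k := Nat.ordProj_dvd _ _
        have h2 : s ^ k.factorization s ≤ k := Nat.le_of_dvd (by omega) h1
        have h3 : s ^ k.factorization s ∣ n := hall s _ hs (lt_of_le_of_lt h2 hky)
        exact dvd_add h3 h1
  exact ⟨r, e, c, α, hr, hc1, hc2, by omega, by rw [← hk]; exact heq, hall⟩

/-- A number all of whose exact prime powers are at most `j` is at most `j ^ j`. -/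
theorem le_pow_self {A j : ℕ} (hA : A ≠ 0) (hj : 1 ≤ j)
    (h : ∀ p : ℕ, p.Prime → p ∣ A → p ^ A.factorization p ≤ j) : A ≤ j ^ j := by
  conv_lhs => rw [← Nat.prod_factorization_pow_eq_self hA]
  rw [Finsupp.prod, Nat.support_factorization]
  have hle : ∀ p ∈ A.primeFactors, p ^ A.factorization p ≤ j := fun p hp =>
    h p (Nat.prime_of_mem_primeFactors hp) (Nat.dvd_of_mem_primeFactors hp)
  calc ∏ p ∈ A.primeFactors, p ^ A.factorization p ≤ ∏ _p ∈ A.primeFactors, j :=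
        Finset.prod_le_prod' hle
    _ = j ^ A.primeFactors.card := by rw [prod_const]
    _ ≤ j ^ j := by
        apply Nat.pow_le_pow_right hj
        have hsub : A.primeFactors ⊆ Icc 1 j := by
          intro p hp
          have hpp := Nat.prime_of_mem_primeFactors hp
          have h1 : 1 ≤ A.factorization p :=
            hpp.factorization_pos_of_dvd hA (Nat.dvd_of_mem_primeFactors hp)
          have h2 : p ≤ p ^ A.factorization p := by
            calc p = p ^ 1 := (pow_one p).symm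
              _ ≤ _ := Nat.pow_le_pow_right hpp.pos h1
          rw [mem_Icc]
          exact ⟨hpp.pos, h2.trans (hle p hp)⟩
        calc A.primeFactors.card ≤ (Icc 1 j).card := card_le_card hsub
          _ = j := by simp

/-- A divisor `A` of `n + j` not divisible by the prime `q` whose exact power in `n + j` is larger
than `j` is at most `j ^ j`. -/
theorem div_le {n j A q : ℕ} (hn : 1 ≤ n) (hj : 1 ≤ j) (hV : V n j ≤ 1) (hA : A ∣ n + j)
    (hq : q.Prime) (hqd : q ∣ n + j) (hqj : j < q ^ (n + j).factorization q) (hqA : ¬ q ∣ A) :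
    A ≤ j ^ j := by
  have hN0 : n + j ≠ 0 := by omega
  have hA0 : A ≠ 0 := by
    rintro rfl
    exact hN0 (Nat.eq_zero_of_zero_dvd hA)
  refine le_pow_self hA0 hj fun p hp hpA => ?_
  have hpq : q ≠ p := by
    rintro rfl
    exact hqA hpA
  have h1 := key hn hV hq hp hpq hqd (hpA.trans hA) hqj
  refine le_trans (Nat.pow_le_pow_right hp.pos ?_) h1
  exact (Nat.factorization_le_iff_dvd hA0 hN0).2 hA p

/-- Step 3: the factorisation of `r ^ (3 t) + 1`. -/
theorem cube_lemma {n j m x : ℕ} (hn : 1 ≤ n) (hj : 1 ≤ j) (hV : V n j ≤ 1) (hx : 2 ≤ x)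
    (h : n + j = m * (x ^ 3 + 1)) : x ≤ j ^ j + 1 := by
  obtain ⟨z, rfl⟩ : ∃ z, x = z + 1 := ⟨x - 1, by omega⟩
  have hN0 : n + j ≠ 0 := by omega
  -- `x + 1 = z + 2`, `x ^ 2 - x + 1 = z ^ 2 + z + 1`
  have hfac : (z + 1) ^ 3 + 1 = (z + 2) * (z ^ 2 + z + 1) := by ring
  have hAd : z + 2 ∣ n + j := ⟨m * (z ^ 2 + z + 1), by rw [h, hfac]; ring⟩
  have hBd : z ^ 2 + z + 1 ∣ n + j := ⟨m * (z + 2), by rw [h, hfac]; ring⟩
  by_cases hex : ∃ q : ℕ, q.Prime ∧ q ∣ n + j ∧ j < q ^ (n + j).factorization q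
  · obtain ⟨q, hq, hqd, hqj⟩ := hex
    by_cases hqA : q ∣ z + 2
    · by_cases hqB : q ∣ z ^ 2 + z + 1
      · -- then `q = 3`
        have h3 : q ∣ 3 := by
          have h4 : z ^ 2 + z + 1 + (z + 2) = (z + 2) * z + 3 := by ring
          have h5 : q ∣ (z + 2) * z + 3 := by
            rw [← h4]
            exact dvd_add hqB hqA
          exact (Nat.dvd_add_right (hqA.mul_right z)).1 h5
        have hq3 : q = 3 := (Nat.prime_dvd_prime_iff_eq hq Nat.prime_three).1 h3
        subst hq3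
        obtain ⟨u, hu⟩ := hqA
        obtain ⟨w, hw⟩ : ∃ w, u = w + 1 := ⟨u - 1, by omega⟩
        have hz : z = 3 * w + 1 := by omega
        have hB' : z ^ 2 + z + 1 = 3 * (3 * w ^ 2 + 3 * w + 1) := by
          rw [hz]; ring
        have h6 : 3 * w ^ 2 + 3 * w + 1 ∣ n + j := by
          refine dvd_trans ⟨3, ?_⟩ hBd
          rw [hB']; ring
        have h7 : ¬ 3 ∣ 3 * w ^ 2 + 3 * w + 1 := by
          intro hd
          have h8 : 3 ∣ 3 * w ^ 2 + 3 * w := ⟨w ^ 2 + w, by ring⟩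
          have := (Nat.dvd_add_right h8).1 hd
          omega
        have h9 := div_le hn hj hV h6 hq hqd hqj h7
        have h10 : 3 * w ≤ 3 * w ^ 2 + 3 * w := by omega
        rcases Nat.eq_zero_or_pos w with hw0 | hw0
        · subst hw0
          have : 1 ≤ j ^ j := Nat.one_le_pow _ _ (by omega)
          omega
        · have h11 : 1 ≤ w ^ 2 := Nat.one_le_pow _ _ hw0
          omega
      · have := div_le hn hj hV hBd hq hqd hqj hqB
        have h2 : 0 ≤ z ^ 2 := Nat.zero_le _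
        omega
    · have := div_le hn hj hV hAd hq hqd hqj hqA
      omega
  · push Not at hex
    have hA0 : z + 2 ≠ 0 := by omega
    have : z + 2 ≤ j ^ j := by
      refine le_pow_self hA0 hj fun p hp hpA => ?_
      refine le_trans (Nat.pow_le_pow_right hp.pos ?_) (hex p hp (hpA.trans hAd))
      exact (Nat.factorization_le_iff_dvd hA0 hN0).2 hAd p
    omega

/-- Step 3: the exponent `α` is bounded by a power of `y = r ^ (e + 1)`. -/
theorem alpha_le {n r e c α : ℕ} (hn : 1 ≤ n) (hV : ∀ k, 1 ≤ k → V n k ≤ 1) (hr : 2 ≤ r)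
    (hc1 : 1 ≤ c) (hc2 : c < r) (hα : n + c * r ^ e = c * r ^ α) :
    α ≤ 13 * (r ^ (e + 1)) ^ 6 := by
  obtain ⟨y, hy⟩ : ∃ y, y = r ^ (e + 1) := ⟨_, rfl⟩
  rw [← hy]
  have hry : r ≤ y := by
    rw [hy]
    calc r = r ^ 1 := (pow_one r).symm
      _ ≤ _ := Nat.pow_le_pow_right (by omega) (by omega)
  have hy2 : 2 ≤ y := hr.trans hry
  obtain ⟨t, ht⟩ : ∃ t, t = α / 3 := ⟨_, rfl⟩
  obtain ⟨i, hi⟩ : ∃ i, i = α % 3 := ⟨_, rfl⟩
  have hi3 : i ≤ 2 := by
    have := Nat.mod_lt α (show 0 < 3 by norm_num)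
    omega
  have hαt : α = 3 * t + i := by
    have := Nat.div_add_mod α 3
    omega
  have hy6 : 1 ≤ y ^ 6 := Nat.one_le_pow _ _ (by omega)
  rcases Nat.eq_zero_or_pos t with ht0 | ht0
  · omega
  obtain ⟨j, hj⟩ : ∃ j, j = c * r ^ e + c * r ^ i := ⟨_, rfl⟩
  have hre : 0 < r ^ e := Nat.pos_of_ne_zero (pow_ne_zero _ (by omega))
  have hri : 0 < r ^ i := Nat.pos_of_ne_zero (pow_ne_zero _ (by omega))
  have hk1 : 1 ≤ c * r ^ e := Nat.mul_pos hc1 hre
  have hj1 : 1 ≤ j := by omega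
  have hnj : n + j = (c * r ^ i) * ((r ^ t) ^ 3 + 1) := by
    calc n + j = (n + c * r ^ e) + c * r ^ i := by rw [hj]; ring
      _ = c * r ^ (3 * t + i) + c * r ^ i := by rw [hα, hαt]
      _ = _ := by
        rw [← pow_mul, pow_add, mul_comm t 3]
        ring
  have hx2 : 2 ≤ r ^ t := by
    calc 2 ≤ r := hr
      _ = r ^ 1 := (pow_one r).symm
      _ ≤ _ := Nat.pow_le_pow_right (by omega) ht0
  have h1 := cube_lemma hn hj1 (hV j hj1) hx2 hnj
  -- `t ≤ j ^ 2`
  have h2 : t ≤ j ^ 2 := by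
    by_contra hcon
    push Not at hcon
    have h3 : j ^ j ≤ 2 ^ (j ^ 2) := by
      calc j ^ j ≤ (2 ^ j) ^ j := Nat.pow_le_pow_left Nat.lt_two_pow_self.le _
        _ = 2 ^ (j ^ 2) := by rw [← pow_mul, sq]
    have h4 : 2 ^ (j ^ 2 + 1) ≤ 2 ^ t := Nat.pow_le_pow_right (by norm_num) hcon
    have h5 : 2 ^ t ≤ r ^ t := Nat.pow_le_pow_left hr _
    have h6 : 2 ^ (j ^ 2 + 1) = 2 ^ (j ^ 2) + 2 ^ (j ^ 2) := by rw [pow_succ]; ring
    have h7 : 2 ≤ 2 ^ (j ^ 2) := by
      calc 2 = 2 ^ 1 := by norm_num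
        _ ≤ _ := Nat.pow_le_pow_right (by norm_num) (Nat.one_le_pow _ _ (by omega))
    omega
  -- `j ≤ 2 y ^ 3`
  have h3 : j ≤ 2 * y ^ 3 := by
    have h4 : c * r ^ e ≤ y := by
      rw [hy, pow_succ, mul_comm (r ^ e) r]
      exact Nat.mul_le_mul_right _ hc2.le
    have h5 : c * r ^ i ≤ y ^ 3 := by
      calc c * r ^ i ≤ r * r ^ 2 :=
            Nat.mul_le_mul hc2.le (Nat.pow_le_pow_right (by omega) hi3)
        _ = r ^ 3 := by ring
        _ ≤ y ^ 3 := Nat.pow_le_pow_left hry _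
    have h6 : y ≤ y ^ 3 := by
      calc y = y ^ 1 := (pow_one y).symm
        _ ≤ _ := Nat.pow_le_pow_right (by omega) (by norm_num)
    omega
  have h4 : j ^ 2 ≤ 4 * y ^ 6 := by
    calc j ^ 2 ≤ (2 * y ^ 3) ^ 2 := Nat.pow_le_pow_left h3 _
      _ = 4 * y ^ 6 := by ring
  have h5 : 2 ≤ y ^ 6 := by
    calc 2 ≤ y := hy2
      _ = y ^ 1 := (pow_one y).symm
      _ ≤ _ := Nat.pow_le_pow_right (by omega) (by norm_num)
  omega

/-- At most `(log₂ y + 1) (√y + 1)` primes `s < y` with `d ∣ s - 1` divide `r ^ d - 1`. -/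
theorem fiber_le {r y d : ℕ} (hr : 2 ≤ r) (hry : r ≤ y) (hd : 1 ≤ d) (F : Finset ℕ)
    (hF : ∀ s ∈ F, s.Prime ∧ s < y ∧ d ∣ s - 1 ∧ s ∣ r ^ d - 1) :
    F.card ≤ (Nat.log 2 y + 1) * (Nat.sqrt y + 1) := by
  by_cases hds : d ≤ Nat.sqrt y
  · have h1 : 2 ^ F.card ≤ ∏ s ∈ F, s :=
      Finset.pow_card_le_prod F (fun s => s) 2 (fun s hs => (hF s hs).1.two_le)
    have h2 : ∏ s ∈ F, s ∣ r ^ d - 1 :=
      Finset.prod_primes_dvd _ (fun s hs => (hF s hs).1.prime) (fun s hs => (hF s hs).2.2.2)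
    have h3 : 2 ≤ r ^ d := by
      calc 2 ≤ r := hr
        _ = r ^ 1 := (pow_one r).symm
        _ ≤ _ := Nat.pow_le_pow_right (by omega) hd
    have h4 := Nat.le_of_dvd (by omega) h2
    have h5 : r ^ d ≤ 2 ^ ((Nat.log 2 y + 1) * d) := by
      calc r ^ d ≤ y ^ d := Nat.pow_le_pow_left hry _
        _ ≤ (2 ^ (Nat.log 2 y + 1)) ^ d :=
            Nat.pow_le_pow_left (Nat.lt_pow_succ_log_self (by norm_num) y).le _
        _ = _ := by rw [← pow_mul]
    have h6 : 2 ^ F.card < 2 ^ ((Nat.log 2 y + 1) * d) := by omega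
    have h7 : F.card < (Nat.log 2 y + 1) * d := (Nat.pow_lt_pow_iff_right (by norm_num)).1 h6
    calc F.card ≤ (Nat.log 2 y + 1) * d := h7.le
      _ ≤ _ := Nat.mul_le_mul_left _ (by omega)
  · push Not at hds
    have h1 : F.card ≤ (range (Nat.sqrt y + 1)).card := by
      apply Finset.card_le_card_of_injOn (fun s => (s - 1) / d)
      · intro s hs
        have hs' := hF s hs
        simp only [coe_range, Set.mem_Iio]
        rw [Nat.div_lt_iff_lt_mul (by omega)]
        have h2 : y < (Nat.sqrt y + 1) * (Nat.sqrt y + 1) := Nat.lt_succ_sqrt y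
        have h3 : (Nat.sqrt y + 1) * (Nat.sqrt y + 1) ≤ (Nat.sqrt y + 1) * d :=
          Nat.mul_le_mul_left _ hds
        have := hs'.2.1
        omega
      · intro s hs s' hs' heq
        simp only at heq
        have h2 := hF s hs
        have h3 := hF s' hs'
        have h4 := Nat.div_mul_cancel h2.2.2.1
        have h5 := Nat.div_mul_cancel h3.2.2.1
        rw [heq, h5] at h4
        have := h2.1.two_le
        have := h3.1.two_le
        omega
    rw [card_range] at h1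
    calc F.card ≤ 1 * (Nat.sqrt y + 1) := by omega
      _ ≤ _ := Nat.mul_le_mul_right _ (by omega)

/-- Step 2: few primes `s < y` divide `c r ^ e (r ^ γ - 1)`. -/
theorem count_lemma {r c e γ y : ℕ} (hr : r.Prime) (hc1 : 1 ≤ c) (hc2 : c < r) (hry : r ≤ y)
    (hγ : 1 ≤ γ) (hall : ∀ s, s.Prime → s < y → s ∣ c * r ^ e * (r ^ γ - 1)) :
    y.primesBelow.card ≤ 1 + Nat.log 2 y +
      (Nat.log 2 y + 1) * (Nat.sqrt y + 1) * γ.divisors.card := by
  classical
  obtain ⟨S, hS⟩ : ∃ S, S = y.primesBelow.filter (fun s => s ≠ r ∧ ¬ s ∣ c) := ⟨_, rfl⟩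
  have hsub : y.primesBelow ⊆ insert r (c.primeFactors ∪ S) := by
    intro s hs
    rw [mem_insert, mem_union, hS, mem_filter, Nat.mem_primeFactors]
    have hsp := Nat.prime_of_mem_primesBelow hs
    by_cases h1 : s = r
    · exact Or.inl h1
    · by_cases h2 : s ∣ c
      · exact Or.inr (Or.inl ⟨hsp, h2, by omega⟩)
      · exact Or.inr (Or.inr ⟨hs, h1, h2⟩)
  have hcard : y.primesBelow.card ≤ 1 + (c.primeFactors.card + S.card) := by
    calc y.primesBelow.card ≤ (insert r (c.primeFactors ∪ S)).card := card_le_card hsub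
      _ ≤ (c.primeFactors ∪ S).card + 1 := card_insert_le _ _
      _ ≤ (c.primeFactors.card + S.card) + 1 := by
          have := card_union_le c.primeFactors S
          omega
      _ = _ := by ring
  have hω : c.primeFactors.card ≤ Nat.log 2 y := by
    have h1 : 2 ^ c.primeFactors.card ≤ ∏ s ∈ c.primeFactors, s :=
      Finset.pow_card_le_prod _ (fun s => s) 2
        (fun s hs => (Nat.prime_of_mem_primeFactors hs).two_le)
    have h2 := Nat.le_of_dvd (by omega) (Nat.prod_primeFactors_dvd c)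
    have h3 : 2 ^ c.primeFactors.card ≤ y := by omega
    exact Nat.le_log_of_pow_le (by norm_num) h3
  have hSc : S.card ≤ (Nat.log 2 y + 1) * (Nat.sqrt y + 1) * γ.divisors.card := by
    have facts : ∀ s ∈ S, s.Prime ∧ s < y ∧ orderOf (r : ZMod s) ∣ γ ∧
        orderOf (r : ZMod s) ∣ s - 1 ∧ s ∣ r ^ orderOf (r : ZMod s) - 1 := by
      intro s hs
      rw [hS, mem_filter] at hs
      obtain ⟨hsy, hsr, hsc⟩ := hs
      have hsp := Nat.prime_of_mem_primesBelow hsy
      have hslt := Nat.lt_of_mem_primesBelow hsy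
      have : Fact s.Prime := ⟨hsp⟩
      have hrp : ∀ m : ℕ, 1 ≤ r ^ m := fun m => Nat.one_le_pow _ _ hr.pos
      have iff1 : ∀ m : ℕ, s ∣ r ^ m - 1 ↔ (r : ZMod s) ^ m = 1 := by
        intro m
        rw [← ZMod.natCast_eq_zero_iff, Nat.cast_sub (hrp m), sub_eq_zero]
        push_cast
        exact Iff.rfl
      have hsr' : ¬ s ∣ r := by
        intro h
        exact hsr ((Nat.prime_dvd_prime_iff_eq hsp hr).1 h)
      have h1 : s ∣ r ^ γ - 1 := by
        rcases (hsp.dvd_mul).1 (hall s hsp hslt) with h | h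
        · rcases (hsp.dvd_mul).1 h with h | h
          · exact absurd h hsc
          · exact absurd (hsp.dvd_of_dvd_pow h) hsr'
        · exact h
      have h2 : (r : ZMod s) ≠ 0 := by
        rw [Ne, ZMod.natCast_eq_zero_iff]
        exact hsr'
      exact ⟨hsp, hslt, orderOf_dvd_of_pow_eq_one ((iff1 γ).1 h1),
        ZMod.orderOf_dvd_card_sub_one h2, (iff1 _).2 (pow_orderOf_eq_one _)⟩
    refine Finset.card_le_mul_card_image_of_maps_to (f := fun s => orderOf (r : ZMod s))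
      (t := γ.divisors) ?_ _ ?_
    · intro s hs
      exact Nat.mem_divisors.2 ⟨(facts s hs).2.2.1, by omega⟩
    · intro d hd
      have hd1 : 1 ≤ d := Nat.pos_of_mem_divisors hd
      refine fiber_le hr.two_le hry hd1 _ ?_
      intro s hs
      rw [mem_filter] at hs
      obtain ⟨hs, rfl⟩ := hs
      obtain ⟨h1, h2, _, h4, h5⟩ := facts s hs
      exact ⟨h1, h2, h4, h5⟩
  omega

/-- `(v + 1) ^ k = O(2 ^ v)` -/
theorem pow_le_two_pow (k : ℕ) : ∃ C : ℕ, 1 ≤ C ∧ ∀ v : ℕ, (v + 1) ^ k ≤ C * 2 ^ v := by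
  have h1 : Filter.Tendsto (fun n : ℕ => (n : ℝ) ^ k / (2 : ℝ) ^ n) Filter.atTop (nhds 0) :=
    tendsto_pow_const_div_const_pow_of_one_lt k (by norm_num)
  obtain ⟨B, hB⟩ := h1.bddAbove_range
  refine ⟨⌈2 * B⌉₊ + 1, by omega, fun v => ?_⟩
  have h2 := hB ⟨v + 1, rfl⟩
  simp only at h2
  have h3 : (0:ℝ) < (2:ℝ) ^ (v + 1) := by positivity
  rw [div_le_iff₀ h3] at h2
  have h4 : (((v + 1) ^ k : ℕ) : ℝ) ≤ (((⌈2 * B⌉₊ + 1) * 2 ^ v : ℕ) : ℝ) := by
    push_cast at h2 ⊢
    have h5 : 2 * B ≤ (⌈2 * B⌉₊ : ℝ) := Nat.le_ceil _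
    have h6 : (0:ℝ) < (2:ℝ) ^ v := by positivity
    calc ((v:ℝ) + 1) ^ k ≤ B * 2 ^ (v + 1) := h2
      _ = (2 * B) * 2 ^ v := by ring
      _ ≤ ((⌈2 * B⌉₊ : ℝ) + 1) * 2 ^ v := by
        apply mul_le_mul_of_nonneg_right _ h6.le
        linarith
  exact_mod_cast h4

/-- The divisor bound `τ(n) ^ k = O(n)`. -/
theorem divisor_bound (k : ℕ) : ∃ K : ℕ, 1 ≤ K ∧
    ∀ n : ℕ, n ≠ 0 → (n.divisors.card) ^ k ≤ K * n := by
  obtain ⟨C, hC1, hC⟩ := pow_le_two_pow k
  refine ⟨∏ p ∈ range (2 ^ k), C, ?_, fun n hn => ?_⟩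
  · rw [prod_const]
    exact Nat.one_le_pow _ _ hC1
  rw [Nat.card_divisors hn, ← Finset.prod_pow]
  conv_rhs => rw [← Nat.prod_factorization_pow_eq_self hn]
  rw [Finsupp.prod, Nat.support_factorization]
  have h1 : ∀ p ∈ n.primeFactors, (n.factorization p + 1) ^ k ≤
      (if p < 2 ^ k then C else 1) * p ^ n.factorization p := by
    intro p hp
    have hp2 : 2 ≤ p := (Nat.prime_of_mem_primeFactors hp).two_le
    split_ifs with h
    · exact (hC _).trans (Nat.mul_le_mul_left _ (Nat.pow_le_pow_left hp2 _))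
    · rw [one_mul]
      calc (n.factorization p + 1) ^ k ≤ (2 ^ n.factorization p) ^ k :=
            Nat.pow_le_pow_left Nat.lt_two_pow_self _
        _ = (2 ^ k) ^ n.factorization p := by
            rw [← pow_mul, mul_comm, pow_mul]
        _ ≤ _ := Nat.pow_le_pow_left (by omega) _
  calc _ ≤ ∏ p ∈ n.primeFactors, (if p < 2 ^ k then C else 1) * p ^ n.factorization p :=
        Finset.prod_le_prod' h1
    _ = (∏ p ∈ n.primeFactors, (if p < 2 ^ k then C else 1)) *
        ∏ p ∈ n.primeFactors, p ^ n.factorization p := Finset.prod_mul_distrib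
    _ ≤ _ := by
        apply Nat.mul_le_mul_right
        rw [← Finset.prod_filter]
        apply Finset.prod_le_prod_of_subset_of_one_le'
        · intro p hp
          rw [Finset.mem_filter] at hp
          exact Finset.mem_range.mpr hp.2
        · intro i _ _
          exact hC1

/-- The final inequality: `y` is bounded. -/
theorem y_bounded {y T K : ℕ} (hy : 2 ≤ y) (hK : 1 ≤ K) (hT : 1 ≤ T)
    (hTK : T ^ 24 ≤ K * (13 * y ^ 6))
    (hπ : y.primesBelow.card ≤ 1 + Nat.log 2 y + (Nat.log 2 y + 1) * (Nat.sqrt y + 1) * T) :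
    y ≤ (54 * 256 * 13 * K) ^ 8 := by
  rcases Nat.lt_or_ge y 3 with hy3 | hy3
  · have h1 : 54 * 256 * 13 * K ≤ (54 * 256 * 13 * K) ^ 8 :=
      Nat.le_self_pow (by norm_num) _
    omega
  have hyR : (3 : ℝ) ≤ y := by exact_mod_cast hy3
  have hy0 : (0 : ℝ) < y := by linarith
  have hlog2 : (0.69 : ℝ) ≤ Real.log 2 := by
    have := Real.log_two_gt_d9
    linarith
  have hlogy : 0 < Real.log y := Real.log_pos (by linarith)
  -- Chebyshev
  have h1 : (y : ℝ) ≤ 3 * ((y.primesBelow.card : ℝ) + 1) * Real.log y := by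
    have h2 := Chebyshev.pi_ge (y - 1)
    have h3 : Nat.primeCounting (y - 1) = y.primesBelow.card := by
      rw [Nat.primesBelow_card_eq_primeCounting', Nat.primeCounting]
      congr 1
      omega
    rw [h3] at h2
    have h4 : ((y - 1 : ℕ) : ℝ) = (y : ℝ) - 1 := by
      rw [Nat.cast_sub (by omega), Nat.cast_one]
    rw [h4, sub_add_cancel] at h2
    have h5 : 0 < Real.log ((y : ℝ) - 1) := Real.log_pos (by linarith)
    rw [div_le_iff₀ h5] at h2
    have h6 : Real.log ((y : ℝ) - 1) ≤ Real.log y := Real.log_le_log (by linarith) (by linarith)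
    have h7 : (y.primesBelow.card : ℝ) * Real.log ((y : ℝ) - 1) ≤
        (y.primesBelow.card : ℝ) * Real.log y :=
      mul_le_mul_of_nonneg_left h6 (Nat.cast_nonneg _)
    have h8 : ((y : ℝ) - 1) * 0.69 ≤ ((y : ℝ) - 1) * Real.log 2 :=
      mul_le_mul_of_nonneg_left hlog2 (by linarith)
    nlinarith
  -- the logarithm and the square root
  obtain ⟨L, hL⟩ : ∃ L, L = Nat.log 2 y := ⟨_, rfl⟩
  obtain ⟨s, hs⟩ : ∃ s, s = Nat.sqrt y := ⟨_, rfl⟩
  rw [← hL, ← hs] at hπ
  have hL1 : 1 ≤ L := by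
    rw [hL]
    exact Nat.le_log_of_pow_le (by norm_num) (by omega)
  have hLR : (L : ℝ) + 1 ≤ 3 * Real.log y := by
    have h2 : 2 ^ L ≤ y := by
      rw [hL]
      exact Nat.pow_log_le_self 2 (by omega)
    have h3 : ((2 : ℝ)) ^ L ≤ y := by exact_mod_cast h2
    have h4 := Real.log_le_log (by positivity) h3
    rw [Real.log_pow] at h4
    have h5 : (L : ℝ) * 0.69 ≤ L * Real.log 2 := mul_le_mul_of_nonneg_left hlog2 (Nat.cast_nonneg _)
    have h6 : (1 : ℝ) ≤ L := by exact_mod_cast hL1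
    linarith
  -- `z = y ^ (1 / 8)`
  obtain ⟨z, hz⟩ : ∃ z, z = √(√(√(y : ℝ))) := ⟨_, rfl⟩
  have hz0 : 0 ≤ z := by rw [hz]; exact Real.sqrt_nonneg _
  have hz4 : z ^ 4 = √(y : ℝ) := by
    rw [hz, show (4 : ℕ) = 2 * 2 from rfl, pow_mul, Real.sq_sqrt (Real.sqrt_nonneg _),
      Real.sq_sqrt (Real.sqrt_nonneg _)]
  have hz8 : z ^ 8 = y := by
    rw [show (8 : ℕ) = 4 * 2 from rfl, pow_mul, hz4, Real.sq_sqrt hy0.le]
  have hz1 : 1 ≤ z := by
    by_contra hcon
    push Not at hcon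
    have : z ^ 8 ≤ 1 := pow_le_one₀ hz0 hcon.le
    linarith
  have hzpos : 0 < z := by linarith
  have hsR : (s : ℝ) + 1 ≤ 2 * z ^ 4 := by
    have h2 : (s : ℝ) ≤ √(y : ℝ) := by
      apply Real.le_sqrt_of_sq_le
      have : s ^ 2 ≤ y := by rw [hs]; exact Nat.sqrt_le' y
      exact_mod_cast this
    have h3 : 1 ≤ z ^ 4 := one_le_pow₀ hz1
    rw [← hz4] at h2
    linarith
  have hlog : (Real.log y) ^ 2 ≤ 256 * z := by
    have h2 : Real.log y = 8 * Real.log z := by
      rw [← hz8, Real.log_pow]; norm_num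
    have h3 : Real.log z ≤ 2 * √z := by
      have h4 : Real.log (√z) ≤ √z := by
        have := Real.log_le_sub_one_of_pos (Real.sqrt_pos.2 hzpos)
        linarith
      rw [Real.log_sqrt hz0] at h4
      linarith
    have h4 : 0 ≤ Real.log z := Real.log_nonneg hz1
    have h5 : (Real.log z) ^ 2 ≤ (2 * √z) ^ 2 := pow_le_pow_left₀ h4 h3 2
    rw [mul_pow, Real.sq_sqrt hz0] at h5
    rw [h2, mul_pow]
    linarith
  have hKR : (1 : ℝ) ≤ K := by exact_mod_cast hK
  have hTR : (T : ℝ) ≤ 13 * K * z ^ 2 := by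
    have h2 : (T : ℝ) ^ 24 ≤ K * (13 * (y : ℝ) ^ 6) := by exact_mod_cast hTK
    have h3 : (K : ℝ) * (13 * (y : ℝ) ^ 6) ≤ (13 * K * z ^ 2) ^ 24 := by
      rw [← hz8]
      have h4 : (13 * (K : ℝ)) ≤ (13 * K) ^ 24 := by
        apply le_self_pow₀ (by linarith) (by norm_num)
      calc (K : ℝ) * (13 * (z ^ 8) ^ 6) = (13 * K) * z ^ 48 := by ring
        _ ≤ (13 * K) ^ 24 * z ^ 48 := mul_le_mul_of_nonneg_right h4 (by positivity)
        _ = _ := by ring
    exact le_of_pow_le_pow_left₀ (by norm_num) (by positivity) (h2.trans h3)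
  -- combine
  have hT1 : (1 : ℝ) ≤ T := by exact_mod_cast hT
  have hπR : (y.primesBelow.card : ℝ) + 1 ≤ 3 * (((L : ℝ) + 1) * ((s : ℝ) + 1) * T) := by
    have h2 : (y.primesBelow.card : ℝ) ≤ 1 + L + ((L : ℝ) + 1) * ((s : ℝ) + 1) * T := by
      exact_mod_cast hπ
    have h3 : (L : ℝ) + 1 ≤ ((L : ℝ) + 1) * ((s : ℝ) + 1) * T := by
      have hs0 : (0 : ℝ) ≤ s := Nat.cast_nonneg _
      have hL0 : (0 : ℝ) ≤ L := Nat.cast_nonneg _
      have h4 : (1 : ℝ) ≤ ((s : ℝ) + 1) * T := by nlinarith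
      calc (L : ℝ) + 1 = ((L : ℝ) + 1) * 1 := by ring
        _ ≤ ((L : ℝ) + 1) * (((s : ℝ) + 1) * T) := mul_le_mul_of_nonneg_left h4 (by linarith)
        _ = _ := by ring
    have h4 : (1 : ℝ) ≤ (L : ℝ) + 1 := by
      have : (0 : ℝ) ≤ L := Nat.cast_nonneg _
      linarith
    linarith
  have h2 : ((L : ℝ) + 1) * ((s : ℝ) + 1) * T ≤
      (3 * Real.log y) * (2 * z ^ 4) * (13 * K * z ^ 2) := by
    gcongr
  have h3 : (y : ℝ) ≤ 54 * 256 * 13 * K * z ^ 7 := by
    calc (y : ℝ) ≤ 3 * ((y.primesBelow.card : ℝ) + 1) * Real.log y := h1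
      _ ≤ 3 * (3 * ((3 * Real.log y) * (2 * z ^ 4) * (13 * K * z ^ 2))) * Real.log y := by
          gcongr
          exact hπR.trans (mul_le_mul_of_nonneg_left h2 (by norm_num))
      _ = (54 * 13 * K * z ^ 6) * (Real.log y) ^ 2 := by ring
      _ ≤ (54 * 13 * K * z ^ 6) * (256 * z) := mul_le_mul_of_nonneg_left hlog (by positivity)
      _ = _ := by ring
  have h4 : z ≤ 54 * 256 * 13 * K := by
    have h5 : z ^ 7 * z ≤ z ^ 7 * (54 * 256 * 13 * K) := by
      calc z ^ 7 * z = z ^ 8 := by ring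
        _ = (y : ℝ) := hz8
        _ ≤ _ := h3
        _ = _ := by ring
    exact le_of_mul_le_mul_left h5 (by positivity)
  have h5 : (y : ℝ) ≤ (54 * 256 * 13 * K) ^ 8 := by
    rw [← hz8]
    exact pow_le_pow_left₀ hz0 h4 8
  exact_mod_cast h5

/-- **The equation `V_1(n) = 1` has only finitely many solutions `n ≥ 1`.**  Here `V_1(n) = 1`
means that `1` is the maximum of `V(n; k)` over all `k ≥ 1`. -/
theorem result : {n : ℕ | 1 ≤ n ∧ IsGreatest {v | ∃ k, 1 ≤ k ∧ v = V n k} 1}.Finite := by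
  obtain ⟨K, hK1, hK⟩ := divisor_bound 24
  obtain ⟨Y, hY⟩ : ∃ Y, Y = (54 * 256 * 13 * K) ^ 8 := ⟨_, rfl⟩
  have hY1 : 1 ≤ Y := by
    rw [hY]
    exact Nat.one_le_pow _ _ (by omega)
  refine (Set.finite_Iic (Y * Y ^ (13 * Y ^ 6))).subset ?_
  rintro n ⟨hn, hmax⟩
  have hV : ∀ k, 1 ≤ k → V n k ≤ 1 := fun k hk => hmax.2 ⟨k, hk, rfl⟩
  obtain ⟨r, e, c, α, hr, hc1, hc2, heα, hα, hall⟩ := structure_lemma hn hV
  obtain ⟨y, hy⟩ : ∃ y, y = r ^ (e + 1) := ⟨_, rfl⟩
  have hα13 : α ≤ 13 * y ^ 6 := by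
    rw [hy]
    exact alpha_le hn hV hr.two_le hc1 hc2 hα
  have hry : r ≤ y := by
    rw [hy]
    calc r = r ^ 1 := (pow_one r).symm
      _ ≤ _ := Nat.pow_le_pow_right hr.pos (by omega)
  obtain ⟨γ, hγ⟩ : ∃ γ, γ = α - e := ⟨_, rfl⟩
  have hγ1 : 1 ≤ γ := by omega
  have hγα : α = e + γ := by omega
  have hnγ : n = c * r ^ e * (r ^ γ - 1) := by
    rw [Nat.mul_sub, mul_one]
    have : c * r ^ α = c * r ^ e * r ^ γ := by rw [hγα, pow_add]; ring
    omega
  have hyb : y ≤ Y := by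
    rw [hY]
    have hT1 : 1 ≤ γ.divisors.card :=
      Finset.card_pos.2 ⟨1, Nat.one_mem_divisors.2 (by omega)⟩
    refine y_bounded (hr.two_le.trans hry) hK1 hT1 ?_ ?_
    · calc γ.divisors.card ^ 24 ≤ K * γ := hK γ (by omega)
        _ ≤ K * (13 * y ^ 6) := Nat.mul_le_mul_left _ (by omega)
    · refine count_lemma (e := e) hr hc1 hc2 hry hγ1 fun s hs hsy => ?_
      rw [← hnγ]
      have := hall s 1 hs (by rw [pow_one, ← hy]; exact hsy)
      rwa [pow_one] at this
  have hrY : r ≤ Y := hry.trans hyb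
  rw [Set.mem_Iic]
  calc n ≤ c * r ^ α := by omega
    _ ≤ Y * Y ^ (13 * Y ^ 6) := by
        apply Nat.mul_le_mul (by omega)
        calc r ^ α ≤ Y ^ α := Nat.pow_le_pow_left hrY _
          _ ≤ _ := Nat.pow_le_pow_right hY1
              (hα13.trans (Nat.mul_le_mul_left _ (Nat.pow_le_pow_left hyb _)))

end Pool.Agent.E8helper70.Old.FinitelyManyH70
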