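import Pool.Agent.E8helper70.AP.Main

/-!
# Narrow progressions in the prime pairs `p, p + h`, for almost all even `h`

Q1 asks for arbitrarily long arithmetic progressions of primes `p` such that `p + 2` is prime. Here `2` is
replaced by `h`: for all the even `h ≤ X` but `X / (log X) ^ U`, any subset of positive relative density of
the set of the primes `p ≤ X` with `p + h` prime (which has at least `(1/64) (h / φ(h)) X / (log X) ^ 2`
elements) contains progressions of length `l`, even with differences at most `(log X) ^ B`.

Proof: a relative Szemerédi theorem for sifted sets, with an explicit modulus `W` and windows of length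
`N ≥ log X`; it needs only that few primes `p > S` (where `S` is a large multiple of `log N`) divide both
`n (n + h)` and `(n + W t) (n + W t + h)` for some `n`, for each `t ≤ N`. Such `p` divide
`W t (h + W t) (h - W t)`, and the exponential moments of `∑ 1 / p` over the primes `p > S` dividing `u`
show that this sum is small for `u = h ± W t`, for all `t ≤ N` and almost all `h`.
-/

set_option autoImplicit false

open Finset

namespace E8helper70.Old.PrimePairProgressions

/-- the primes `p ≤ X` for which `p + h` is prime -/
def pairs (h X : ℕ) : Finset ℕ := (Icc 1 X).filter (fun p => p.Prime ∧ (p + h).Prime)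

open Classical in
/-- For all `l`, `U` and `ε > 0` there are `B`, `X₀` such that for all `X ≥ X₀` all the even `h ≤ X` but
`X / (log X) ^ U` have the following property: there are at least `(1/64) (h / φ(h)) X / (log X) ^ 2`
primes `p ≤ X` with `p + h` prime, and every set `A` of such primes whose size is at least `ε` times the
number of all of them contains a progression `a, a + d, ..., a + (l - 1) d` with `1 ≤ d ≤ (log X) ^ B`. -/
theorem result (l U : ℕ) (ε : ℝ) (hε : 0 < ε) : ∃ B X₀ : ℕ, ∀ X : ℕ, X₀ ≤ X →
    (((Icc 1 X).filter (fun h : ℕ => Even h ∧
      ¬ (1 / 64 * ((h : ℝ) / h.totient) * (X / Real.log X ^ 2) ≤ (pairs h X).card ∧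
        ∀ A ⊆ pairs h X, ε * (pairs h X).card ≤ A.card →
          ∃ a d : ℕ, 1 ≤ d ∧ (d : ℝ) ≤ Real.log X ^ B ∧ ∀ i < l, a + i * d ∈ A))).card : ℝ) ≤
      X / Real.log X ^ U :=
  E8helper70.AP.main l U ε hε

end E8helper70.Old.PrimePairProgressions
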